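import Pool.Agent.Q193.SC.Mazur

set_option autoImplicit false
set_option linter.unusedSectionVars false
set_option synthInstance.maxHeartbeats 400000

open Filter Topology

namespace Pool.Agent.Q193.SC

open Pool.Agent.Q193.SA

universe u

/-- `J` is (isometrically) a complemented ideal of `A`, with embedding `i` and projection `P`. -/
structure Compl {A J : Type u} [NonUnitalNormedRing A] [NormedSpace ℂ A]
    [NonUnitalNormedRing J] [NormedSpace ℂ J] (i : J →L[ℂ] A) (P : A →L[ℂ] J) : Prop where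
  iso : ∀ x, ‖i x‖ = ‖x‖
  mul : ∀ x y, i (x * y) = i x * i y
  Pi : ∀ x, P (i x) = x
  left : ∀ a x, i (P (a * i x)) = a * i x
  right : ∀ a x, i (P (i x * a)) = i x * a

variable {A J : Type u} [NonUnitalNormedRing A] [NormedSpace ℂ A]
variable [IsScalarTower ℂ A A] [SMulCommClass ℂ A A]
variable [NonUnitalNormedRing J] [NormedSpace ℂ J] {i : J →L[ℂ] A} {P : A →L[ℂ] J}

namespace Compl

lemma inj (H : Compl i P) {x y : J} (h : i x = i y) : x = y := by
  rw [← H.Pi x, h, H.Pi]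

lemma assoc1 (H : Compl i P) (a : J) (x : A) (r : J) :
    a * P (x * i r) = P (i a * x) * r := by
  apply H.inj
  rw [H.mul, H.mul, H.left, H.right, mul_assoc]

lemma assoc2 (H : Compl i P) (b : J) (y : A) (a : J) :
    P (i b * y) * a = b * P (y * i a) := by
  apply H.inj
  rw [H.mul, H.mul, H.left, H.right, mul_assoc]

lemma assoc3 (H : Compl i P) (a : J) (x : A) (b : J) :
    P (i a * x) * b = P (i a * (x * i b)) := by
  apply H.inj
  rw [H.mul, H.right, mul_assoc, H.right]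

end Compl

/-- The second component of the bilinear composition bound. -/
lemma norm_bilinearComp (F : Bil A) (S T : A →L[ℂ] A) :
    ‖F.bilinearComp S T‖ ≤ ‖F‖ * ‖S‖ * ‖T‖ := by
  refine ContinuousLinearMap.opNorm_le_bound₂ _
    (mul_nonneg (mul_nonneg (ContinuousLinearMap.opNorm_nonneg F) (norm_nonneg _)) (norm_nonneg _))
    fun x y => ?_
  have h0 : 0 ≤ ‖F‖ := ContinuousLinearMap.opNorm_nonneg F
  calc ‖F (S x) (T y)‖ ≤ ‖F‖ * ‖S x‖ * ‖T y‖ := F.le_opNorm₂ _ _
    _ ≤ ‖F‖ * (‖S‖ * ‖x‖) * (‖T‖ * ‖y‖) := by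
        have h1 := S.le_opNorm x
        have h2 := T.le_opNorm y
        gcongr
    _ = _ := by ring

/-- The approximation data for a finite family in the ideal. -/
theorem core (H : Compl i P) (hA : ApproxSemiAmenable A) {κ : Type*} [Fintype κ] (a : κ → J)
    {ε : ℝ} (hε : 0 < ε) :
    ∃ (n : ℕ) (x y : Fin n → A) (s : A) (m : ℕ) (x' y' : Fin m → A) (t : A),
      (∀ j, ‖a j * (P (∑ k, x k * y k + s) - ∑ k, P (x k * i (P (y k)))) - a j‖ ≤ ε) ∧
      (∀ j, ‖-(∑ k, P (i (P (x' k)) * y' k) + P t) * a j - a j‖ ≤ ε) ∧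
      ∀ (j : κ) (ψ : Bil A),
        ‖(∑ k, (ψ (i (a j) * x k) (y k) - ψ (i (a j)) (x k * y k)) - ψ (i (a j)) s) -
          (∑ k, ψ (x' k) (y' k * i (a j)) + ψ t (i (a j)))‖ ≤ ε * ‖ψ‖ := by
  let Q : A →L[ℂ] A := ContinuousLinearMap.id ℂ A - i.comp P
  let E : A →L[ℂ] A := i.comp P
  let C : ℝ := ‖P‖ * ‖ContinuousLinearMap.id ℂ A‖ * ‖Q‖ + ‖P‖ + ‖P‖ * ‖E‖ * ‖E‖
  have hC0 : 0 ≤ C := by positivity
  let ε' : ℝ := ε / (C + 1)
  have hε' : 0 < ε' := by positivity
  have hεε : ε' * C ≤ ε := by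
    calc ε' * C ≤ ε' * (C + 1) := by gcongr; linarith
      _ = ε := by simp only [ε']; field_simp
  have hε1 : ε' ≤ ε := by
    refine div_le_self hε.le (by linarith)
  obtain ⟨n, x, y, s, m, x', y', t, h⟩ := mazur' hA (fun j => i (a j)) hε'
  have hmul : ∀ (g : A →L[ℂ] ℂ), ‖mulForm g‖ ≤ ‖g‖ := norm_mulForm
  -- right approximate identity
  have hr : ∀ j, ‖a j * (P (∑ k, x k * y k + s) - ∑ k, P (x k * i (P (y k)))) - a j‖ ≤
      ε' * (‖P‖ * ‖ContinuousLinearMap.id ℂ A‖ * ‖Q‖ + ‖P‖) := by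
    intro j
    refine NormedSpace.norm_le_dual_bound ℂ _ (by positivity) fun g => ?_
    have h1 := h j ((mulForm (g.comp P)).bilinearComp (ContinuousLinearMap.id ℂ A) Q) (g.comp P)
    have h2 : ‖g.comp P‖ ≤ ‖g‖ * ‖P‖ := ContinuousLinearMap.opNorm_comp_le _ _
    have h3 : ‖(mulForm (g.comp P)).bilinearComp (ContinuousLinearMap.id ℂ A) Q‖ ≤
        ‖g‖ * ‖P‖ * ‖ContinuousLinearMap.id ℂ A‖ * ‖Q‖ := by
      refine (norm_bilinearComp _ _ _).trans ?_
      have := (hmul (g.comp P)).trans h2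
      gcongr
    have h4 : ε' * (‖(mulForm (g.comp P)).bilinearComp (ContinuousLinearMap.id ℂ A) Q‖ +
        ‖g.comp P‖) ≤ ε' * (‖P‖ * ‖ContinuousLinearMap.id ℂ A‖ * ‖Q‖ + ‖P‖) * ‖g‖ := by
      calc _ ≤ ε' * (‖g‖ * ‖P‖ * ‖ContinuousLinearMap.id ℂ A‖ * ‖Q‖ + ‖g‖ * ‖P‖) := by gcongr
        _ = _ := by ring
    refine le_trans (le_of_eq ?_) (h1.trans h4)
    congr 1
    have hQ0 : ∀ z : J, Q (i z) = 0 := by
      intro z
      simp only [Q, sub_apply, ContinuousLinearMap.comp_apply, ContinuousLinearMap.id_apply,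
        H.Pi, sub_self]
    have hQ1 : ∀ w : A, Q (w * i (a j)) = 0 := by
      intro w
      rw [← H.left w (a j)]
      exact hQ0 _
    have hQ : ∀ w : A, Q w = w - i (P w) := fun w => rfl
    simp only [ContinuousLinearMap.bilinearComp_apply, mulForm_apply, hQ1, hQ0, map_zero,
      Finset.sum_const_zero, add_zero, sub_zero, ContinuousLinearMap.id_apply, hQ]
    have e1 : ∀ w : A, (g.comp P) (i (a j) * i (P w)) = g (a j * P w) := by
      intro w
      rw [← H.mul, ContinuousLinearMap.comp_apply, H.Pi]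
    have e2 : ∀ w v : A, (g.comp P) (i (a j) * w * i (P v)) = g (a j * P (w * i (P v))) := by
      intro w v
      rw [ContinuousLinearMap.comp_apply, H.assoc1, H.assoc3, mul_assoc]
    have e3 : (g.comp P) (i (a j)) = g (a j) := by
      rw [ContinuousLinearMap.comp_apply, H.Pi]
    have e4 : ∀ k, (g.comp P) (i (a j) * x k * (y k - i (P (y k)))) -
        (g.comp P) (i (a j) * (x k * y k - i (P (x k * y k)))) =
        g (a j * P (x k * y k)) - g (a j * P (x k * i (P (y k)))) := by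
      intro k
      rw [mul_sub, mul_sub, map_sub, map_sub, e1, e2, mul_assoc]
      ring
    simp only [e4, e3]
    rw [mul_sub (i (a j)) s, map_sub (g.comp P), e1, map_sub g, mul_sub (a j), map_sub g, map_add P,
      mul_add (a j), map_add g, map_sum P, Finset.mul_sum, map_sum g, Finset.mul_sum, map_sum g,
      Finset.sum_sub_distrib]
    ring
  have hl : ∀ j, ‖-(∑ k, P (i (P (x' k)) * y' k) + P t) * a j -
      a j * (P (∑ k, x k * y k + s) - ∑ k, P (x k * i (P (y k))))‖ ≤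
      ε' * (‖P‖ * ‖E‖ * ‖E‖) := by
    intro j
    refine NormedSpace.norm_le_dual_bound ℂ _ (by positivity) fun g => ?_
    have h1 := h j ((mulForm (g.comp P)).bilinearComp E E) 0
    have h2 : ‖g.comp P‖ ≤ ‖g‖ * ‖P‖ := ContinuousLinearMap.opNorm_comp_le _ _
    have h3 : ‖(mulForm (g.comp P)).bilinearComp E E‖ ≤ ‖g‖ * ‖P‖ * ‖E‖ * ‖E‖ := by
      refine (norm_bilinearComp _ _ _).trans ?_
      have := (hmul (g.comp P)).trans h2
      gcongr
    have h4 : ε' * (‖(mulForm (g.comp P)).bilinearComp E E‖ + ‖(0 : A →L[ℂ] ℂ)‖) ≤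
        ε' * (‖P‖ * ‖E‖ * ‖E‖) * ‖g‖ := by
      rw [norm_zero, add_zero]
      calc _ ≤ ε' * (‖g‖ * ‖P‖ * ‖E‖ * ‖E‖) := by gcongr
        _ = _ := by ring
    refine le_trans (le_of_eq ?_) (h1.trans h4)
    congr 1
    have hE : ∀ w : A, E w = i (P w) := fun w => rfl
    simp only [ContinuousLinearMap.bilinearComp_apply, mulForm_apply, hE, zero_apply,
      zero_sub, sub_zero, H.Pi, H.left, H.right]
    have e1 : ∀ w : A, (g.comp P) (i (a j) * i (P w)) = g (a j * P w) := by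
      intro w
      rw [← H.mul, ContinuousLinearMap.comp_apply, H.Pi]
    have e2 : ∀ w v : A, (g.comp P) (i (a j) * w * i (P v)) = g (a j * P (w * i (P v))) := by
      intro w v
      rw [ContinuousLinearMap.comp_apply, H.assoc1, H.assoc3, mul_assoc]
    have e3 : ∀ v w : A, (g.comp P) (i (P v) * (w * i (a j))) = g (P (i (P v) * w) * a j) := by
      intro v w
      rw [ContinuousLinearMap.comp_apply, H.assoc3]
    have e4 : ∀ w : A, (g.comp P) (i (P w) * i (a j)) = g (P w * a j) := by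
      intro w
      rw [← H.mul, ContinuousLinearMap.comp_apply, H.Pi]
    simp only [e1, e2, e3, e4]
    rw [map_sub g, neg_mul, map_neg g, add_mul, map_add g, Finset.sum_mul, map_sum g,
      mul_sub (a j), map_sub g, map_add P, mul_add (a j), map_add g, map_sum P, Finset.mul_sum,
      map_sum g, Finset.mul_sum, map_sum g, Finset.sum_sub_distrib]
    ring
  refine ⟨n, x, y, s, m, x', y', t, fun j => ?_, fun j => ?_, fun j ψ => ?_⟩
  · refine (hr j).trans (le_trans ?_ hεε)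
    gcongr
    exact le_add_of_nonneg_right (by positivity)
  · have h1 := norm_add_le (-(∑ k, P (i (P (x' k)) * y' k) + P t) * a j -
      a j * (P (∑ k, x k * y k + s) - ∑ k, P (x k * i (P (y k)))))
      (a j * (P (∑ k, x k * y k + s) - ∑ k, P (x k * i (P (y k)))) - a j)
    rw [sub_add_sub_cancel] at h1
    refine h1.trans ((add_le_add (hl j) (hr j)).trans (le_trans (le_of_eq ?_) hεε))
    simp only [C]; ring
  · have h1 := h j ψ 0
    simp only [zero_apply, zero_sub, sub_zero, norm_zero, add_zero] at h1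
    have h0 : 0 ≤ ‖ψ‖ := ContinuousLinearMap.opNorm_nonneg ψ
    refine le_trans (le_of_eq ?_) (h1.trans (mul_le_mul_of_nonneg_right hε1 h0))
    congr 1

/-- one-sided approximate identities -/
theorem exists_units (H : Compl i P) (hA : ApproxSemiAmenable A) {κ : Type*} [Fintype κ]
    (a : κ → J) {ε : ℝ} (hε : 0 < ε) :
    ∃ r l : J, ∀ j, ‖a j * r - a j‖ ≤ ε ∧ ‖l * a j - a j‖ ≤ ε := by
  obtain ⟨n, x, y, s, m, x', y', t, h1, h2, -⟩ := core H hA a hε
  exact ⟨_, _, fun j => ⟨h1 j, h2 j⟩⟩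

end Pool.Agent.Q193.SC
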