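import Pool.Agent.Q193.SC.Ideal
import Pool.Agent.Q193.SB.Gen

set_option autoImplicit false
set_option linter.unusedSectionVars false
set_option synthInstance.maxHeartbeats 400000

open Filter Topology

namespace Pool.Agent.Q193.SC

open Pool.Agent.Q193.SA Pool.Agent.Q193.SB

universe u

variable {A J : Type u} [NonUnitalNormedRing A] [NormedSpace ℂ A]
variable [IsScalarTower ℂ A A] [SMulCommClass ℂ A A]
variable [NonUnitalNormedRing J] [NormedSpace ℂ J] {i : J →L[ℂ] A} {P : A →L[ℂ] J}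

section

variable {Z : Type u} [NormedAddCommGroup Z] [NormedSpace ℂ Z] (M : Bimodule J Z)
  (D : J →L[ℂ] (Z →L[ℂ] ℂ))

/-- the form `(x, y) ↦ D (P y) (z · P x)` -/
noncomputable def psi (P : A →L[ℂ] J) (z : Z) : Bil A :=
  ((D.comp P).flip).comp ((M.R.flip z).comp P)

lemma psi_apply (z : Z) (x y : A) : psi M D P z x y = D (P y) (M.R (P x) z) := rfl

lemma norm_psi (z : Z) : ‖psi M D P z‖ ≤ (‖D‖ * ‖P‖ * (‖M.R‖ * ‖P‖)) * ‖z‖ := by
  refine ContinuousLinearMap.opNorm_le_bound₂ _ (by positivity) fun x y => ?_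
  rw [psi_apply]
  have h1 := P.le_opNorm x
  have h2 := P.le_opNorm y
  calc ‖D (P y) (M.R (P x) z)‖ ≤ ‖D‖ * ‖P y‖ * ‖M.R (P x) z‖ := D.le_opNorm₂ _ _
    _ ≤ ‖D‖ * ‖P y‖ * (‖M.R‖ * ‖P x‖ * ‖z‖) := by
        have := M.R.le_opNorm₂ (P x) z
        gcongr
    _ ≤ ‖D‖ * (‖P‖ * ‖y‖) * (‖M.R‖ * (‖P‖ * ‖x‖) * ‖z‖) := by gcongr
    _ = _ := by ring

lemma dualL_add' (a : J) (φ ψ : Z →L[ℂ] ℂ) : M.dualL a (φ + ψ) = M.dualL a φ + M.dualL a ψ := by
  ext x
  simp [Bimodule.dualL]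

lemma dualL_add_alg (a b : J) (φ : Z →L[ℂ] ℂ) : M.dualL (a + b) φ = M.dualL a φ + M.dualL b φ := by
  ext x
  simp [Bimodule.dualL]

/-- The key step: approximate semi-innerness on finite sets. -/
theorem finite_approx (H : Compl i P) (hA : ApproxSemiAmenable A) (hD : M.IsDerivation D)
    {κ : Type*} [Fintype κ] (a : κ → J) {ε : ℝ} (hε : 0 < ε) :
    ∃ ξ η : Z →L[ℂ] ℂ, ∀ j, ‖M.dualL (a j) ξ - M.dualR (a j) η - D (a j)‖ ≤ ε := by
  let C : ℝ := ‖D‖ * ‖P‖ * (‖M.R‖ * ‖P‖) + ‖D‖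
  have hC0 : 0 ≤ C := by positivity
  let ε1 : ℝ := ε / (2 * (C + 1))
  have hε1 : 0 < ε1 := by positivity
  have hεε : ε1 * C ≤ ε / 2 := by
    calc ε1 * C ≤ ε1 * (C + 1) := by gcongr; linarith
      _ = ε / 2 := by simp only [ε1]; field_simp
  obtain ⟨n, x, y, s, m, x', y', t, -, h2, h3⟩ := core H hA a hε1
  let B : ℝ := (∑ k, ‖D‖ * ‖P (y k)‖ * ‖M.R‖) + (∑ k, ‖D‖ * ‖M.R‖ * ‖P (x' k)‖) +
    ‖D‖ * ∑ k, ‖P (x' k)‖
  have hB0 : 0 ≤ B := by
    have h1 : 0 ≤ ∑ k, ‖D‖ * ‖P (y k)‖ * ‖M.R‖ := Finset.sum_nonneg fun k _ => by positivity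
    have h2 : 0 ≤ ∑ k, ‖D‖ * ‖M.R‖ * ‖P (x' k)‖ := Finset.sum_nonneg fun k _ => by positivity
    have h3 : 0 ≤ ∑ k, ‖P (x' k)‖ := Finset.sum_nonneg fun k _ => by positivity
    positivity
  let δ : ℝ := ε / (2 * (B + 1))
  have hδ : 0 < δ := by positivity
  have hδε : δ * B ≤ ε / 2 := by
    calc δ * B ≤ δ * (B + 1) := by gcongr; linarith
      _ = ε / 2 := by simp only [δ]; field_simp
  obtain ⟨r, l', hr⟩ := exists_units H hA (fun p : κ × Fin n => P (i (a p.1) * x p.2)) hδ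
  obtain ⟨r', l, hl⟩ := exists_units H hA (fun p : κ × Fin m => P (y' p.2 * i (a p.1))) hδ
  let ξ1 : Z →L[ℂ] ℂ := ∑ k, M.dualL (P (x k * i r)) (D (P (y k))) - D (P (∑ k, x k * y k + s))
  let η1 : Z →L[ℂ] ℂ := ∑ k, M.dualL (P (x' k)) (D (P (i l * y' k)))
  let p : J := ∑ k, P (x' k) * P (i l * y' k) + P t
  -- the algebraic identity
  have key : ∀ j, M.dualL (a j) ξ1 - M.dualR (a j) η1 - M.dualL p (D (a j)) =
      ∑ k, M.dualL (P (i (a j) * x k) * r) (D (P (y k))) -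
        M.dualL (a j) (D (P (∑ k, x k * y k + s))) -
      (∑ k, M.dualL (P (x' k)) (D (l * P (y' k * i (a j)))) + M.dualL (P t) (D (a j))) := by
    intro j
    have e1 : M.dualL (a j) ξ1 = ∑ k, M.dualL (P (i (a j) * x k) * r) (D (P (y k))) -
        M.dualL (a j) (D (P (∑ k, x k * y k + s))) := by
      simp only [ξ1]
      rw [dualL_sub, dualL_sum]
      congr 1
      refine Finset.sum_congr rfl fun k _ => ?_
      rw [← dualL_mul, H.assoc1]
    have e2 : M.dualR (a j) η1 + M.dualL p (D (a j)) =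
        ∑ k, M.dualL (P (x' k)) (D (l * P (y' k * i (a j)))) + M.dualL (P t) (D (a j)) := by
      simp only [η1, p]
      rw [dualR_sum, dualL_add_alg, dualL_sum', ← add_assoc, ← Finset.sum_add_distrib]
      congr 1
      refine Finset.sum_congr rfl fun k _ => ?_
      rw [dual_comm, ← H.assoc2, hD, dualL_add', dualL_mul, add_comm]
    rw [e1, sub_sub, e2]
  have hpa : ∀ j, ‖p * a j + a j‖ ≤ δ * (∑ k, ‖P (x' k)‖) + ε1 := by
    intro j
    have e1 : p * a j + a j = ∑ k, P (x' k) * (l * P (y' k * i (a j)) - P (y' k * i (a j))) -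
        (-(∑ k, P (i (P (x' k)) * y' k) + P t) * a j - a j) := by
      simp only [p, mul_sub, add_mul, neg_mul, Finset.sum_mul, Finset.sum_sub_distrib]
      have e3 : ∀ k, P (x' k) * P (i l * y' k) * a j = P (x' k) * (l * P (y' k * i (a j))) := by
        intro k
        rw [mul_assoc, H.assoc2]
      have e4 : ∀ k, P (i (P (x' k)) * y' k) * a j = P (x' k) * P (y' k * i (a j)) := by
        intro k
        rw [H.assoc2]
      simp only [e3, e4]
      abel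
    rw [e1]
    refine (norm_sub_le _ _).trans (add_le_add ?_ (h2 j))
    refine (norm_sum_le _ _).trans ?_
    rw [Finset.mul_sum]
    refine Finset.sum_le_sum fun k _ => ?_
    refine (norm_mul_le _ _).trans ?_
    rw [mul_comm]
    exact mul_le_mul_of_nonneg_right (hl (j, k)).2 (norm_nonneg _)
  have hterm : ∀ j, ‖M.dualL (a j) ξ1 - M.dualR (a j) η1 - M.dualL p (D (a j))‖ ≤
      ε1 * (‖D‖ * ‖P‖ * (‖M.R‖ * ‖P‖)) + δ * ((∑ k, ‖D‖ * ‖P (y k)‖ * ‖M.R‖) +
        (∑ k, ‖D‖ * ‖M.R‖ * ‖P (x' k)‖)) := by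
    intro j
    rw [key j]
    refine ContinuousLinearMap.opNorm_le_bound _ (by positivity) fun z => ?_
    have h4 := (h3 j (psi M D P z)).trans (mul_le_mul_of_nonneg_left (norm_psi M D z) hε1.le)
    have e0 : (∑ k, M.dualL (P (i (a j) * x k) * r) (D (P (y k))) -
        M.dualL (a j) (D (P (∑ k, x k * y k + s))) -
      (∑ k, M.dualL (P (x' k)) (D (l * P (y' k * i (a j)))) + M.dualL (P t) (D (a j)))) z =
      ((∑ k, (psi M D P z (i (a j) * x k) (y k) - psi M D P z (i (a j)) (x k * y k)) -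
          psi M D P z (i (a j)) s) -
          (∑ k, psi M D P z (x' k) (y' k * i (a j)) + psi M D P z t (i (a j)))) +
      (∑ k, D (P (y k)) (M.R (P (i (a j) * x k) * r - P (i (a j) * x k)) z) -
        ∑ k, D (l * P (y' k * i (a j)) - P (y' k * i (a j))) (M.R (P (x' k)) z)) := by
      simp only [psi_apply, sub_apply, add_apply, sum_apply, Bimodule.dualL,
        ContinuousLinearMap.comp_apply, H.Pi, map_sub, map_add, map_sum,
        Finset.sum_sub_distrib]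
      ring
    rw [e0]
    refine (norm_add_le _ _).trans ?_
    rw [add_mul]
    refine add_le_add (h4.trans (le_of_eq (by ring))) ?_
    refine (norm_sub_le _ _).trans ?_
    have h5 : ‖∑ k, D (P (y k)) (M.R (P (i (a j) * x k) * r - P (i (a j) * x k)) z)‖ ≤
        δ * (∑ k, ‖D‖ * ‖P (y k)‖ * ‖M.R‖) * ‖z‖ := by
      refine (norm_sum_le _ _).trans ?_
      rw [Finset.mul_sum, Finset.sum_mul]
      refine Finset.sum_le_sum fun k _ => ?_
      calc ‖D (P (y k)) (M.R (P (i (a j) * x k) * r - P (i (a j) * x k)) z)‖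
          ≤ ‖D‖ * ‖P (y k)‖ * ‖M.R (P (i (a j) * x k) * r - P (i (a j) * x k)) z‖ :=
            D.le_opNorm₂ _ _
        _ ≤ ‖D‖ * ‖P (y k)‖ * (‖M.R‖ * ‖P (i (a j) * x k) * r - P (i (a j) * x k)‖ * ‖z‖) := by
            have := M.R.le_opNorm₂ (P (i (a j) * x k) * r - P (i (a j) * x k)) z
            gcongr
        _ ≤ ‖D‖ * ‖P (y k)‖ * (‖M.R‖ * δ * ‖z‖) := by
            have := (hr (j, k)).1
            gcongr
        _ = _ := by ring
    have h6 : ‖∑ k, D (l * P (y' k * i (a j)) - P (y' k * i (a j))) (M.R (P (x' k)) z)‖ ≤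
        δ * (∑ k, ‖D‖ * ‖M.R‖ * ‖P (x' k)‖) * ‖z‖ := by
      refine (norm_sum_le _ _).trans ?_
      rw [Finset.mul_sum, Finset.sum_mul]
      refine Finset.sum_le_sum fun k _ => ?_
      calc ‖D (l * P (y' k * i (a j)) - P (y' k * i (a j))) (M.R (P (x' k)) z)‖
          ≤ ‖D‖ * ‖l * P (y' k * i (a j)) - P (y' k * i (a j))‖ * ‖M.R (P (x' k)) z‖ :=
            D.le_opNorm₂ _ _
        _ ≤ ‖D‖ * ‖l * P (y' k * i (a j)) - P (y' k * i (a j))‖ * (‖M.R‖ * ‖P (x' k)‖ * ‖z‖) := by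
            have := M.R.le_opNorm₂ (P (x' k)) z
            gcongr
        _ ≤ ‖D‖ * δ * (‖M.R‖ * ‖P (x' k)‖ * ‖z‖) := by
            have := (hl (j, k)).2
            gcongr
        _ = _ := by ring
    refine (add_le_add h5 h6).trans (le_of_eq (by ring))
  refine ⟨-ξ1, D p - η1, fun j => ?_⟩
  have e5 : M.dualL (a j) (-ξ1) - M.dualR (a j) (D p - η1) - D (a j) =
      -(M.dualL (a j) ξ1 - M.dualR (a j) η1 - M.dualL p (D (a j))) - D (p * a j + a j) := by
    have e6 : M.dualL (a j) (-ξ1) = - M.dualL (a j) ξ1 := by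
      ext z; simp [Bimodule.dualL]
    have e7 : D (p * a j + a j) = M.dualL p (D (a j)) + M.dualR (a j) (D p) + D (a j) := by
      rw [← hD p (a j)]
      exact map_add D _ _
    rw [e6, dualR_sub, e7]
    abel
  rw [e5]
  refine (norm_sub_le _ _).trans ?_
  rw [norm_neg]
  have h7 : ‖D (p * a j + a j)‖ ≤ ‖D‖ * (δ * (∑ k, ‖P (x' k)‖) + ε1) :=
    (D.le_opNorm _).trans (mul_le_mul_of_nonneg_left (hpa j) (norm_nonneg _))
  refine (add_le_add (hterm j) h7).trans ?_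
  have h8 : ε1 * (‖D‖ * ‖P‖ * (‖M.R‖ * ‖P‖)) + δ * ((∑ k, ‖D‖ * ‖P (y k)‖ * ‖M.R‖) +
        (∑ k, ‖D‖ * ‖M.R‖ * ‖P (x' k)‖)) + ‖D‖ * (δ * (∑ k, ‖P (x' k)‖) + ε1) =
        ε1 * C + δ * B := by
    simp only [C, B]; ring
  rw [h8]
  linarith

end

/-- A complemented ideal of an approximately semi-amenable Banach algebra is approximately
semi-amenable. -/
theorem ideal_semi (H : Compl i P) (hA : ApproxSemiAmenable A) : ApproxSemiAmenable J := by
  classical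
  intro Z _ _ _ M D hD
  have h : ∀ p : Finset J × ℕ, ∃ ξη : (Z →L[ℂ] ℂ) × (Z →L[ℂ] ℂ),
      ∀ a ∈ p.1, ‖M.dualL a ξη.1 - M.dualR a ξη.2 - D a‖ ≤ 1 / ((p.2 : ℝ) + 1) := by
    intro p
    obtain ⟨ξ, η, h⟩ := finite_approx M D H hA hD (fun a : p.1 => (a : J))
      (ε := 1 / ((p.2 : ℝ) + 1)) (by positivity)
    exact ⟨(ξ, η), fun a ha => h ⟨a, ha⟩⟩
  choose f hf using h
  refine ⟨Finset J × ℕ, atTop, inferInstance, fun p => (f p).1, fun p => (f p).2, fun a => ?_⟩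
  rw [Metric.tendsto_atTop]
  intro ε hε
  obtain ⟨N, hN⟩ := exists_nat_one_div_lt hε
  refine ⟨({a}, N), fun p hp => ?_⟩
  rw [dist_eq_norm]
  have h1 := hf p a (hp.1 (Finset.mem_singleton_self a))
  refine lt_of_le_of_lt h1 (lt_of_le_of_lt ?_ hN)
  have h2 : (N : ℝ) ≤ p.2 := by exact_mod_cast hp.2
  have h3 : (0 : ℝ) < (N : ℝ) + 1 := by positivity
  exact one_div_le_one_div_of_le h3 (by linarith)

end Pool.Agent.Q193.SC
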