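import Pool.Agent.Q193.SC.Univ

set_option autoImplicit false
set_option linter.unusedSectionVars false
set_option synthInstance.maxHeartbeats 400000

open Filter Topology

namespace Pool.Agent.Q193.SC

open Pool.Agent.Q193.SA

universe u

variable {A : Type u} [NonUnitalNormedRing A] [NormedSpace ℂ A]
variable [IsScalarTower ℂ A A] [SMulCommClass ℂ A A]

/-- the dual of the universal module -/
abbrev UD (A : Type u) [NonUnitalNormedRing A] [NormedSpace ℂ A] : Type u := UX A →L[ℂ] ℂ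

theorem dual_crit (hA : ApproxSemiAmenable A) {κ : Type*} [Fintype κ] (a : κ → A) (φ : κ → UX A)
    (h1 : ∑ j, rU (a j) (φ j) = 0) (h2 : ∑ j, lU (a j) (φ j) = 0) :
    ∑ j, ev1 (a j) (φ j) = 0 := by
  obtain ⟨ι, l, hl, ξ, η, h⟩ := hA (UX A) (uMod A) ev1 ev1_der
  have h3 : Tendsto (fun i => ∑ j, ((uMod A).dualL (a j) (ξ i) - (uMod A).dualR (a j) (η i)) (φ j))
      l (𝓝 (∑ j, ev1 (a j) (φ j))) := by
    refine tendsto_finsetSum _ fun j _ => ?_
    exact ((ContinuousLinearMap.apply ℂ ℂ (φ j)).continuous.tendsto _).comp (h (a j))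
  have h4 : (fun i => ∑ j, ((uMod A).dualL (a j) (ξ i) - (uMod A).dualR (a j) (η i)) (φ j)) =
      fun _ => 0 := by
    funext i
    have : ∀ j, ((uMod A).dualL (a j) (ξ i) - (uMod A).dualR (a j) (η i)) (φ j) =
        ξ i (rU (a j) (φ j)) - η i (lU (a j) (φ j)) := fun j => rfl
    simp only [this]
    rw [Finset.sum_sub_distrib, ← map_sum, ← map_sum, h1, h2, map_zero, map_zero, sub_zero]
  rw [h4] at h3
  exact (tendsto_nhds_unique h3 tendsto_const_nhds)

/-- the finite sums -/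
noncomputable def VV (A : Type u) [NonUnitalNormedRing A] [NormedSpace ℂ A]
    [IsScalarTower ℂ A A] [SMulCommClass ℂ A A] : Submodule ℂ (UD A) :=
  Submodule.span ℂ (Set.range fun p : A × A => ev p.1 p.2) ⊔ LinearMap.range (ev1 (A := A)).toLinearMap

lemma ev_mem (x y : A) : ev x y ∈ VV A :=
  Submodule.mem_sup_left (Submodule.subset_span ⟨(x, y), rfl⟩)

lemma ev1_mem (x : A) : ev1 x ∈ VV A := Submodule.mem_sup_right ⟨x, rfl⟩

lemma exists_rep {ξ : UD A} (h : ξ ∈ VV A) :
    ∃ (n : ℕ) (x y : Fin n → A) (s : A), ξ = ∑ k, ev (x k) (y k) + ev1 s := by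
  obtain ⟨ξ1, h1, ξ2, ⟨s, rfl⟩, rfl⟩ := Submodule.mem_sup.mp h
  rw [Submodule.mem_span_set'] at h1
  obtain ⟨n, c, g, rfl⟩ := h1
  choose p hp using fun k => (g k).2
  refine ⟨n, fun k => c k • (p k).1, fun k => (p k).2, s, ?_⟩
  congr 1
  refine Finset.sum_congr rfl fun k _ => ?_
  rw [← hp k]
  ext φ
  simp [ev_apply]

/-- the map `(ξ, η) ↦ (a_j ξ - η a_j)_j` -/
noncomputable def comb {κ : Type*} (a : κ → A) : (VV A × VV A) →ₗ[ℂ] (κ → UD A) where
  toFun p := fun j => (uMod A).dualL (a j) p.1.1 - (uMod A).dualR (a j) p.2.1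
  map_add' p q := by
    funext j
    ext φ
    simp [Bimodule.dualL, Bimodule.dualR]
    ring
  map_smul' c p := by
    funext j
    ext φ
    simp [Bimodule.dualL, Bimodule.dualR]
    ring

theorem mazur (hA : ApproxSemiAmenable A) {κ : Type*} [Fintype κ] (a : κ → A) {ε : ℝ} (hε : 0 < ε) :
    ∃ ξ ∈ VV A, ∃ η ∈ VV A, ∀ j,
      ‖(uMod A).dualL (a j) ξ - (uMod A).dualR (a j) η - ev1 (a j)‖ < ε := by
  classical
  let W : Submodule ℂ (κ → UD A) := LinearMap.range (comb a)
  let Dp : κ → UD A := fun j => ev1 (a j)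
  by_cases hD : Dp ∈ closure (W : Set (κ → UD A))
  · obtain ⟨w, ⟨⟨ξ, η⟩, rfl⟩, hw⟩ := Metric.mem_closure_iff.mp hD ε hε
    refine ⟨ξ.1, ξ.2, η.1, η.2, fun j => ?_⟩
    rw [dist_comm, dist_eq_norm] at hw
    exact lt_of_le_of_lt (norm_le_pi_norm (comb a (ξ, η) - Dp) j) hw
  · exfalso
    have hD' : Dp ∉ (W.topologicalClosure : Set (κ → UD A)) := by
      rw [Submodule.topologicalClosure_coe]; exact hD
    obtain ⟨f, u, hf1, hf2⟩ := RCLike.geometric_hahn_banach_closed_point (𝕜 := ℂ)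
      ((W.topologicalClosure.restrictScalars ℝ).convex) (W.isClosed_topologicalClosure) hD'
    have hf0 : ∀ w ∈ W, f w = 0 := by
      intro w hw
      by_contra hne
      have h1 := hf1 ((((|u| + 1 : ℝ) : ℂ) / f w) • w)
        (W.topologicalClosure.smul_mem _ (W.le_topologicalClosure hw))
      rw [map_smul, smul_eq_mul, div_mul_cancel₀ _ hne] at h1
      simp at h1
      linarith [le_abs_self u]
    have hu : 0 < u := by
      have := hf1 0 (W.topologicalClosure.zero_mem)
      simpa using this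
    have hfD : f Dp ≠ 0 := by
      intro h
      rw [h] at hf2
      simp at hf2
      linarith
    let Λ : κ → (UD A →L[ℂ] ℂ) := fun j => f.comp (ContinuousLinearMap.single ℂ (fun _ => UD A) j)
    have hΛ : ∀ w : κ → UD A, f w = ∑ j, Λ j (w j) := by
      intro w
      conv_lhs => rw [← Finset.univ_sum_single w]
      rw [map_sum]
      rfl
    let φ : κ → UX A := fun j => mkU ((ContinuousLinearMap.compL ℂ A (UD A) ℂ (Λ j)).comp ev)
      ((Λ j).comp ev1)
    have hev : ∀ j x y, ev x y (φ j) = Λ j (ev x y) := fun j x y => rfl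
    have hev1 : ∀ j x, ev1 x (φ j) = Λ j (ev1 x) := fun j x => rfl
    have hcrit := dual_crit hA a φ ?_ ?_
    · apply hfD
      rw [hΛ]
      simp only [hev1] at hcrit
      exact hcrit
    · refine ux_ext ?_ ?_
      · ext x y
        change ev x y (∑ j, rU (a j) (φ j)) = 0
        rw [map_sum]
        have h1 : ∀ j, ev x y (rU (a j) (φ j)) = Λ j ((uMod A).dualL (a j) (ev x y)) := by
          intro j
          rw [dualL_ev, map_sub]
          change ((uMod A).dualL (a j) (ev x y)) (φ j) = _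
          rw [dualL_ev]
          rfl
        simp only [h1]
        rw [← hΛ (fun j => (uMod A).dualL (a j) (ev x y))]
        refine hf0 _ ⟨(⟨ev x y, ev_mem x y⟩, 0), ?_⟩
        funext j
        simp [comb, Bimodule.dualR]
      · ext x
        change ev1 x (∑ j, rU (a j) (φ j)) = 0
        rw [map_sum]
        have h1 : ∀ j, ev1 x (rU (a j) (φ j)) = Λ j ((uMod A).dualL (a j) (ev1 x)) := by
          intro j
          rw [dualL_ev1, map_sub]
          change ((uMod A).dualL (a j) (ev1 x)) (φ j) = _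
          rw [dualL_ev1]
          rfl
        simp only [h1]
        rw [← hΛ (fun j => (uMod A).dualL (a j) (ev1 x))]
        refine hf0 _ ⟨(⟨ev1 x, ev1_mem x⟩, 0), ?_⟩
        funext j
        simp [comb, Bimodule.dualR]
    · refine ux_ext ?_ ?_
      · ext x y
        change ev x y (∑ j, lU (a j) (φ j)) = 0
        rw [map_sum]
        have h1 : ∀ j, ev x y (lU (a j) (φ j)) = Λ j ((uMod A).dualR (a j) (ev x y)) := by
          intro j
          rw [dualR_ev]
          rfl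
        simp only [h1]
        rw [← hΛ (fun j => (uMod A).dualR (a j) (ev x y))]
        refine hf0 _ ⟨(0, -⟨ev x y, ev_mem x y⟩), ?_⟩
        funext j
        ext φ
        simp [comb, Bimodule.dualR, Bimodule.dualL]
      · ext x
        change ev1 x (∑ j, lU (a j) (φ j)) = 0
        rw [map_sum]
        have h1 : ∀ j, ev1 x (lU (a j) (φ j)) = Λ j ((uMod A).dualR (a j) (ev1 x)) := by
          intro j
          rw [dualR_ev1]
          rfl
        simp only [h1]
        rw [← hΛ (fun j => (uMod A).dualR (a j) (ev1 x))]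
        refine hf0 _ ⟨(0, -⟨ev1 x, ev1_mem x⟩), ?_⟩
        funext j
        ext φ
        simp [comb, Bimodule.dualR, Bimodule.dualL]

/-- The estimate in concrete form. -/
theorem mazur' (hA : ApproxSemiAmenable A) {κ : Type*} [Fintype κ] (a : κ → A) {ε : ℝ}
    (hε : 0 < ε) :
    ∃ (n : ℕ) (x y : Fin n → A) (s : A) (m : ℕ) (x' y' : Fin m → A) (t : A),
      ∀ (j : κ) (ψ : Bil A) (f : A →L[ℂ] ℂ),
        ‖(∑ k, (ψ (a j * x k) (y k) - ψ (a j) (x k * y k)) + (f (a j * s) - ψ (a j) s)) -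
          (∑ k, ψ (x' k) (y' k * a j) + ψ t (a j)) - f (a j)‖ ≤ ε * (‖ψ‖ + ‖f‖) := by
  obtain ⟨ξ, hξ, η, hη, h⟩ := mazur hA a hε
  obtain ⟨n, x, y, s, rfl⟩ := exists_rep hξ
  obtain ⟨m, x', y', t, rfl⟩ := exists_rep hη
  refine ⟨n, x, y, s, m, x', y', t, fun j ψ f => ?_⟩
  have h1 := (((uMod A).dualL (a j) (∑ k, ev (x k) (y k) + ev1 s) -
    (uMod A).dualR (a j) (∑ k, ev (x' k) (y' k) + ev1 t) - ev1 (a j))).le_opNorm (mkU ψ f)
  have h2 : ‖mkU ψ f‖ ≤ ‖ψ‖ + ‖f‖ :=
    norm_mkU_le (le_add_of_nonneg_right (norm_nonneg _)) (le_add_of_nonneg_left (ContinuousLinearMap.opNorm_nonneg ψ))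
  have h3 := h1.trans (mul_le_mul (h j).le h2 (norm_nonneg _) hε.le)
  refine le_trans (le_of_eq ?_) h3
  congr 1
  have e1 : ((uMod A).dualL (a j) (∑ k, ev (x k) (y k) + ev1 s)) (mkU ψ f) =
      ∑ k, (ψ (a j * x k) (y k) - ψ (a j) (x k * y k)) + (f (a j * s) - ψ (a j) s) := by
    change (∑ k, ev (x k) (y k) + ev1 s) (rU (a j) (mkU ψ f)) = _
    rw [add_apply, sum_apply]
    congr 1
  have e2 : ((uMod A).dualR (a j) (∑ k, ev (x' k) (y' k) + ev1 t)) (mkU ψ f) =
      ∑ k, ψ (x' k) (y' k * a j) + ψ t (a j) := by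
    change (∑ k, ev (x' k) (y' k) + ev1 t) (lU (a j) (mkU ψ f)) = _
    rw [add_apply, sum_apply]
    congr 1
  rw [sub_apply, sub_apply, e1, e2]
  rfl

end Pool.Agent.Q193.SC
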