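import Pool.Agent.Q193.SA.Crit

set_option autoImplicit false
set_option linter.unusedSectionVars false
set_option synthInstance.maxHeartbeats 400000

/-!
The universal derivation `a ↦ a ⊗ 1 - 1 ⊗ a`, in dual form, and approximate semi-inner-ness by
finite sums.
-/

open Filter Topology

namespace Pool.Agent.Q193.SC

open Pool.Agent.Q193.SA

universe u

/-- pairs `(ψ, f)`: a bounded bilinear form and a bounded functional -/
def UX (A : Type u) [NonUnitalNormedRing A] [NormedSpace ℂ A] : Type u :=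
  Bil A × (A →L[ℂ] ℂ)

section UX

variable {A : Type u} [NonUnitalNormedRing A] [NormedSpace ℂ A]

noncomputable instance : NormedAddCommGroup (UX A) :=
  inferInstanceAs (NormedAddCommGroup (Bil A × (A →L[ℂ] ℂ)))

noncomputable instance : NormedSpace ℂ (UX A) :=
  inferInstanceAs (NormedSpace ℂ (Bil A × (A →L[ℂ] ℂ)))

instance : CompleteSpace (UX A) := inferInstanceAs (CompleteSpace (Bil A × (A →L[ℂ] ℂ)))

/-- first coordinate -/
noncomputable def p1 : UX A →L[ℂ] Bil A := ContinuousLinearMap.fst ℂ (Bil A) (A →L[ℂ] ℂ)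

/-- second coordinate -/
noncomputable def p2 : UX A →L[ℂ] (A →L[ℂ] ℂ) := ContinuousLinearMap.snd ℂ (Bil A) (A →L[ℂ] ℂ)

/-- inclusion of the first coordinate -/
noncomputable def i1 : Bil A →L[ℂ] UX A := ContinuousLinearMap.inl ℂ (Bil A) (A →L[ℂ] ℂ)

/-- inclusion of the second coordinate -/
noncomputable def i2 : (A →L[ℂ] ℂ) →L[ℂ] UX A := ContinuousLinearMap.inr ℂ (Bil A) (A →L[ℂ] ℂ)

/-- constructor -/
def mkU (F : Bil A) (k : A →L[ℂ] ℂ) : UX A := (F, k)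

@[simp] lemma p1_mkU (F : Bil A) (k : A →L[ℂ] ℂ) : p1 (mkU F k) = F := rfl
@[simp] lemma p2_mkU (F : Bil A) (k : A →L[ℂ] ℂ) : p2 (mkU F k) = k := rfl
@[simp] lemma p1_i1 (F : Bil A) : p1 (i1 F) = F := rfl
@[simp] lemma p2_i1 (F : Bil A) : p2 (i1 F) = 0 := rfl
@[simp] lemma p1_i2 (k : A →L[ℂ] ℂ) : p1 (i2 k : UX A) = 0 := rfl
@[simp] lemma p2_i2 (k : A →L[ℂ] ℂ) : p2 (i2 k : UX A) = k := rfl

lemma ux_ext {x y : UX A} (h1 : p1 x = p1 y) (h2 : p2 x = p2 y) : x = y := Prod.ext h1 h2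

lemma norm_mkU_le {F : Bil A} {k : A →L[ℂ] ℂ} {C : ℝ} (h1 : ‖F‖ ≤ C) (h3 : ‖k‖ ≤ C) :
    ‖mkU F k‖ ≤ C := by
  change ‖((F, k) : Bil A × (A →L[ℂ] ℂ))‖ ≤ C
  rw [Prod.norm_def]
  exact max_le h1 h3

lemma norm_p1_le (x : UX A) : ‖p1 x‖ ≤ ‖x‖ := norm_fst_le (E := Bil A) (F := (A →L[ℂ] ℂ)) x

lemma norm_p2_le (x : UX A) : ‖p2 x‖ ≤ ‖x‖ := norm_snd_le (E := Bil A) (F := (A →L[ℂ] ℂ)) x

end UX

variable {A : Type u} [NonUnitalNormedRing A] [NormedSpace ℂ A]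
variable [IsScalarTower ℂ A A] [SMulCommClass ℂ A A]

/-- `(x, y) ↦ g (x y)` -/
noncomputable def mulForm (g : A →L[ℂ] ℂ) : Bil A :=
  (ContinuousLinearMap.compL ℂ A A ℂ g).comp (ContinuousLinearMap.mul ℂ A)

@[simp] lemma mulForm_apply (g : A →L[ℂ] ℂ) (x y : A) : mulForm g x y = g (x * y) := rfl

lemma norm_mulForm (g : A →L[ℂ] ℂ) : ‖mulForm g‖ ≤ ‖g‖ := by
  refine ContinuousLinearMap.opNorm_le_bound₂ _ (by positivity) fun b c => ?_
  rw [mulForm_apply]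
  calc ‖g (b * c)‖ ≤ ‖g‖ * ‖b * c‖ := g.le_opNorm _
    _ ≤ ‖g‖ * (‖b‖ * ‖c‖) := by gcongr; exact norm_mul_le b c
    _ = _ := by ring

lemma norm_sub_bil (F G : Bil A) : ‖F - G‖ ≤ ‖F‖ + ‖G‖ := by
  refine ContinuousLinearMap.opNorm_le_bound₂ _ (by positivity) fun b c => ?_
  have h1 := F.le_opNorm₂ b c
  have h2 := G.le_opNorm₂ b c
  calc ‖(F - G) b c‖ = ‖F b c - G b c‖ := rfl
    _ ≤ ‖F b c‖ + ‖G b c‖ := norm_sub_le _ _
    _ ≤ ‖F‖ * ‖b‖ * ‖c‖ + ‖G‖ * ‖b‖ * ‖c‖ := add_le_add h1 h2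
    _ = _ := by ring

/-- the left action -/
noncomputable def lU (a : A) (x : UX A) : UX A := mkU (lG a (p1 x)) ((p1 x).flip a)

/-- the right action -/
noncomputable def rU (a : A) (x : UX A) : UX A :=
  mkU (rF a (p1 x) - mulForm (p1 x a)) ((p2 x).comp (ContinuousLinearMap.mul ℂ A a) - p1 x a)

@[simp] lemma p1_lU (a : A) (x : UX A) : p1 (lU a x) = lG a (p1 x) := rfl
@[simp] lemma p2_lU (a : A) (x : UX A) : p2 (lU a x) = (p1 x).flip a := rfl
@[simp] lemma p1_rU (a : A) (x : UX A) : p1 (rU a x) = rF a (p1 x) - mulForm (p1 x a) := rfl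
@[simp] lemma p2_rU (a : A) (x : UX A) :
    p2 (rU a x) = (p2 x).comp (ContinuousLinearMap.mul ℂ A a) - p1 x a := rfl

lemma norm_lU (a : A) (x : UX A) : ‖lU a x‖ ≤ 2 * ‖a‖ * ‖x‖ := by
  have hx : ‖p1 x‖ ≤ ‖x‖ := norm_p1_le x
  have h0 : (0 : ℝ) ≤ ‖a‖ * ‖x‖ := by positivity
  refine norm_mkU_le ?_ ?_
  · calc ‖lG a (p1 x)‖ ≤ ‖a‖ * ‖p1 x‖ := norm_lG a _
      _ ≤ ‖a‖ * ‖x‖ := by gcongr
      _ ≤ 2 * ‖a‖ * ‖x‖ := by linarith
  · calc ‖(p1 x).flip a‖ ≤ ‖(p1 x).flip‖ * ‖a‖ := ((p1 x).flip).le_opNorm a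
      _ = ‖p1 x‖ * ‖a‖ := by rw [ContinuousLinearMap.opNorm_flip]
      _ ≤ ‖x‖ * ‖a‖ := by gcongr
      _ ≤ 2 * ‖a‖ * ‖x‖ := by linarith

lemma norm_rU (a : A) (x : UX A) : ‖rU a x‖ ≤ 2 * ‖a‖ * ‖x‖ := by
  have hx : ‖p1 x‖ ≤ ‖x‖ := norm_p1_le x
  have hx2 : ‖p2 x‖ ≤ ‖x‖ := norm_p2_le x
  have h1 : ‖p1 x a‖ ≤ ‖x‖ * ‖a‖ := ((p1 x).le_opNorm a).trans (by gcongr)
  refine norm_mkU_le ?_ ?_
  · calc ‖rF a (p1 x) - mulForm (p1 x a)‖ ≤ ‖rF a (p1 x)‖ + ‖mulForm (p1 x a)‖ :=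
          norm_sub_bil _ _
      _ ≤ ‖a‖ * ‖p1 x‖ + ‖p1 x a‖ := add_le_add (norm_rF a _) (norm_mulForm _)
      _ ≤ ‖a‖ * ‖x‖ + ‖x‖ * ‖a‖ := by gcongr
      _ = 2 * ‖a‖ * ‖x‖ := by ring
  · calc ‖(p2 x).comp (ContinuousLinearMap.mul ℂ A a) - p1 x a‖
        ≤ ‖(p2 x).comp (ContinuousLinearMap.mul ℂ A a)‖ + ‖p1 x a‖ := norm_sub_le _ _
      _ ≤ ‖p2 x‖ * ‖ContinuousLinearMap.mul ℂ A a‖ + ‖x‖ * ‖a‖ := by
          gcongr
          exact ContinuousLinearMap.opNorm_comp_le _ _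
      _ ≤ ‖x‖ * ‖a‖ + ‖x‖ * ‖a‖ := by
          gcongr
          exact ContinuousLinearMap.opNorm_mul_apply_le ℂ A a
      _ = 2 * ‖a‖ * ‖x‖ := by ring

/-- the universal bimodule -/
noncomputable def uMod (A : Type u) [NonUnitalNormedRing A] [NormedSpace ℂ A]
    [IsScalarTower ℂ A A] [SMulCommClass ℂ A A] : Bimodule A (UX A) where
  L := LinearMap.mkContinuous₂ (LinearMap.mk₂ ℂ lU
    (by
      intro a b x
      refine ux_ext ?_ ?_
      · ext c d; simp [mul_add]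
      · ext c; simp)
    (by
      intro c a x
      refine ux_ext ?_ ?_
      · ext d e; simp [mul_smul_comm]
      · ext d; simp)
    (by
      intro a x y
      refine ux_ext ?_ ?_
      · ext c d; simp
      · ext c; simp)
    (by
      intro c a x
      refine ux_ext ?_ ?_
      · ext d e; simp
      · ext d; simp)) 2 norm_lU
  R := LinearMap.mkContinuous₂ (LinearMap.mk₂ ℂ rU
    (by
      intro a b x
      refine ux_ext ?_ ?_
      · ext c d; simp [add_mul]; ring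
      · ext c; simp; ring)
    (by
      intro c a x
      refine ux_ext ?_ ?_
      · ext d e; simp [smul_mul_assoc]; ring
      · ext d; simp; ring)
    (by
      intro a x y
      refine ux_ext ?_ ?_
      · ext c d; simp; ring
      · ext c; simp; ring)
    (by
      intro c a x
      refine ux_ext ?_ ?_
      · ext d e; simp; ring
      · ext d; simp; ring)) 2 norm_rU
  L_mul a b x := by
    change lU (a * b) x = lU a (lU b x)
    refine ux_ext ?_ ?_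
    · ext d e; simp [mul_assoc]
    · ext d; simp
  R_mul a b x := by
    change rU (a * b) x = rU b (rU a x)
    refine ux_ext ?_ ?_
    · ext d e; simp [mul_assoc]
    · ext d; simp [mul_assoc]
  comm a b x := by
    change lU a (rU b x) = rU b (lU a x)
    refine ux_ext ?_ ?_
    · ext d e; simp [mul_assoc]
    · ext d; simp

lemma uMod_L (a : A) (x : UX A) : (uMod A).L a x = lU a x := rfl
lemma uMod_R (a : A) (x : UX A) : (uMod A).R a x = rU a x := rfl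

/-- evaluation of the form -/
noncomputable def ev : A →L[ℂ] A →L[ℂ] (UX A →L[ℂ] ℂ) :=
  ((ContinuousLinearMap.flipₗᵢ ℂ (UX A) A ℂ).toContinuousLinearEquiv :
    (UX A →L[ℂ] A →L[ℂ] ℂ) →L[ℂ] (A →L[ℂ] UX A →L[ℂ] ℂ)).comp (p1 (A := A)).flip

lemma ev_apply (x y : A) (φ : UX A) : ev x y φ = p1 φ x y := rfl

/-- evaluation of the functional; this is the universal derivation -/
noncomputable def ev1 : A →L[ℂ] (UX A →L[ℂ] ℂ) := (p2 (A := A)).flip

lemma ev1_apply (x : A) (φ : UX A) : ev1 x φ = p2 φ x := rfl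

lemma ev1_der : (uMod A).IsDerivation ev1 := by
  intro a b
  ext φ
  change p2 φ (a * b) = p2 (rU a φ) b + p2 (lU b φ) a
  simp

lemma dualL_ev (a x y : A) : (uMod A).dualL a (ev x y) = ev (a * x) y - ev a (x * y) := by
  ext φ
  change p1 (rU a φ) x y = p1 φ (a * x) y - p1 φ a (x * y)
  simp

lemma dualL_ev1 (a x : A) : (uMod A).dualL a (ev1 x) = ev1 (a * x) - ev a x := by
  ext φ
  change p2 (rU a φ) x = p2 φ (a * x) - p1 φ a x
  simp

lemma dualR_ev (a x y : A) : (uMod A).dualR a (ev x y) = ev x (y * a) := by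
  ext φ
  change p1 (lU a φ) x y = p1 φ x (y * a)
  simp

lemma dualR_ev1 (a x : A) : (uMod A).dualR a (ev1 x) = ev x a := by
  ext φ
  change p2 (lU a φ) x = p1 φ x a
  simp

end Pool.Agent.Q193.SC
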